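import Pool.Agent.U913.KM.Ext
import Pool.Agent.R837.FE.Block

/-!
# The block of the format `X y = 0`, `s y = (maximal minors of X)`
-/

set_option autoImplicit false
set_option linter.unusedSectionVars false

namespace Pool.Agent.U913.KM

open Finset MvPolynomial Pool.Agent.R837.FE
open Pool.Agent.TH144.NV (act)

variable {a : ℕ}

/-- the weights of the coordinates -/
def cw (a : ℕ) : Co a → ℕ := Sum.elim (fun _ => 2) (Sum.elim (fun _ => a) fun _ => a)

open Classical in
/-- the pattern -/
theorem pat (k : Type) [Field k] (ha : 2 ≤ a) (R : Fin a → Fin (a + 1) → Prop)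
    (Lx : Fin (a + 1) → Prop) (Q : Fin a → Prop) (Ls : Prop)
    (h1 : ∀ i j, R i j → Lx j → Q i) (h2 : ∀ i j, Q i → Lx j → R i j)
    (h2' : ∀ i j, R i j → Q i → Lx j)
    (h3 : ∀ (σ : Equiv.Perm (Fin a)) (j : Fin (a + 1)),
      (∀ i, R (σ i) (j.succAbove i)) → (Lx j ↔ Ls))
    (live : Co a → Prop) (hl1 : ∀ i j, live (Sum.inl (i, j)) ↔ R i j)
    (hl2 : ∀ j, live (Sum.inr (Sum.inl j)) ↔ Lx j) (hl3 : live (Sum.inr (Sum.inr ())) ↔ Ls)
    (A : Finset (Co a)) (hA : ∀ x, x ∈ A ↔ live x) :
    ∃ Pt : Finset (Co a), Pool.Agent.R837.FQ.Ext k (kmEq k a) live Pt ∧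
      Pt.card ≤ A.card ∧ 2 * a * (A.card - Pt.card) ≤
        ∑ x ∈ A, cw a x + (a - 2) * (univ.filter Q).card := by
  set A1 : Finset (Fin a × Fin (a + 1)) := univ.filter fun x => R x.1 x.2 with hA1
  set A2 : Finset (Fin (a + 1)) := univ.filter fun j => Lx j with hA2
  set A3 : Finset Unit := univ.filter fun _ => Ls with hA3
  set Qs : Finset (Fin a) := univ.filter Q with hQs
  have hAd : A = A1.disjSum (A2.disjSum A3) := by
    ext x
    rw [hA]
    rcases x with ⟨i, j⟩ | j | u
    · rw [hl1, Finset.inl_mem_disjSum, hA1, mem_filter]; simp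
    · rw [hl2, Finset.inr_mem_disjSum, Finset.inl_mem_disjSum, hA2, mem_filter]; simp
    · rw [hl3, Finset.inr_mem_disjSum, Finset.inr_mem_disjSum, hA3, mem_filter]; simp
  have hAc : A.card = A1.card + (A2.card + A3.card) := by
    rw [hAd, Finset.card_disjSum, Finset.card_disjSum]
  have hsum : ∑ x ∈ A, cw a x = 2 * A1.card + (a * A2.card + a * A3.card) := by
    rw [hAd, Finset.sum_disjSum, Finset.sum_disjSum]
    simp [cw, mul_comm]
  have hpq : A2.card * Qs.card ≤ A1.card := by
    rw [mul_comm, ← Finset.card_product]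
    refine Finset.card_le_card ?_
    rintro ⟨i, j⟩ hx
    obtain ⟨hi, hj⟩ := Finset.mem_product.1 hx
    rw [hA1, mem_filter]
    exact ⟨mem_univ _, h2 i j (mem_filter.1 hi).2 (mem_filter.1 hj).2⟩
  rw [hsum, hAc]
  obtain ⟨b, rfl⟩ : ∃ b, a = b + 2 := ⟨a - 2, by omega⟩
  rw [Nat.add_sub_cancel]
  set p := A2.card with hp
  set q := Qs.card with hq
  set n1 := A1.card with hn1
  -- the chart in which `y` does not vanish
  have chart_y : 0 < p → ∃ Pt : Finset (Co (b + 2)),
      Pool.Agent.R837.FQ.Ext k (kmEq k (b + 2)) live Pt ∧ Pt.card + q = n1 + p := by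
    intro hp0
    obtain ⟨j0, hj0⟩ := Finset.card_pos.1 hp0
    have hj0' : Lx j0 := (mem_filter.1 hj0).2
    set D : Finset (Fin (b + 2) × Fin (b + 2 + 1)) := Qs.image fun i => (i, j0) with hD
    have hDc : D.card = q := Finset.card_image_of_injective _ (fun i i' h => by simpa using h)
    have hDA : D ⊆ A1 := by
      intro x hx
      obtain ⟨i, hi, rfl⟩ := Finset.mem_image.1 hx
      rw [hA1, mem_filter]
      exact ⟨mem_univ _, h2 i j0 (mem_filter.1 hi).2 hj0'⟩
    refine ⟨(A1 \ D).disjSum (A2.disjSum ∅), ?_, ?_⟩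
    · refine ext_y k R Lx Ls j0 hj0' (fun i l h4 h5 => h2 i j0 (h1 i l h4 h5) hj0')
        (fun σ hσ => (h3 σ j0 hσ).1 hj0') live (fun i j h => (hl1 i j).2 h)
        (fun j h => (hl2 j).2 h) (fun h => hl3.2 h) _ ?_ ?_ ?_
      · intro i j hx
        rw [Finset.inl_mem_disjSum, mem_sdiff, hA1, mem_filter] at hx
        refine ⟨hx.1.2, fun h => hx.2 ?_⟩
        rw [hD, Finset.mem_image]
        refine ⟨i, ?_, by rw [h]⟩
        rw [hQs, mem_filter]
        exact ⟨mem_univ _, h1 i j hx.1.2 (h ▸ hj0')⟩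
      · intro j
        rw [Finset.inr_mem_disjSum, Finset.inl_mem_disjSum, hA2, mem_filter]; simp
      · rw [Finset.inr_mem_disjSum, Finset.inr_mem_disjSum]; simp
    · rw [Finset.card_disjSum, Finset.card_disjSum, Finset.card_sdiff_of_subset hDA, hDc]
      have := Finset.card_le_card hDA
      simp only [Finset.card_empty]
      omega
  by_cases hLs : Ls
  · have hA3c : A3.card = 1 := by
      rw [hA3, Finset.filter_true_of_mem fun _ _ => hLs]; rfl
    rw [hA3c]
    by_cases hcase : p ≤ q + 1
    · refine ⟨A1.disjSum ((∅ : Finset (Fin (b + 2 + 1))).disjSum univ), ?_, ?_, ?_⟩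
      · refine ext_s k R Lx (fun σ j hσ => (h3 σ j hσ).2 hLs) live (fun i j h => (hl1 i j).2 h)
          (fun j h => (hl2 j).2 h) (hl3.2 hLs) _ ?_ ?_ ?_
        · intro i j hx
          rw [Finset.inl_mem_disjSum, hA1, mem_filter] at hx
          exact hx.2
        · intro j
          rw [Finset.inr_mem_disjSum, Finset.inl_mem_disjSum]; simp
        · rw [Finset.inr_mem_disjSum, Finset.inr_mem_disjSum]; simp
      · rw [Finset.card_disjSum, Finset.card_disjSum]
        simp
        omega
      · rw [Finset.card_disjSum, Finset.card_disjSum]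
        simp only [Finset.card_empty, Finset.card_univ, Fintype.card_unit]
        have e1 : n1 + (p + 1) - (n1 + (0 + 1)) = p := by omega
        rw [e1]
        rcases Nat.eq_zero_or_pos p with h0 | h0
        · rw [h0]; simp
        · obtain ⟨p', hp'⟩ : ∃ p', p = p' + 1 := ⟨p - 1, by omega⟩
          obtain ⟨r', hr'⟩ : ∃ r', q = p' + r' := ⟨q - p', by omega⟩
          rw [hp', hr'] at hpq
          rw [hp', hr']
          nlinarith [Nat.zero_le (p' * p'), Nat.zero_le (p' * r'), Nat.zero_le (b * r')]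
    · obtain ⟨Pt, hPt, hc⟩ := chart_y (by omega)
      refine ⟨Pt, hPt, by omega, ?_⟩
      have e1 : n1 + (p + 1) - Pt.card = q + 1 := by omega
      rw [e1]
      obtain ⟨r', hr'⟩ : ∃ r', p = q + 2 + r' := ⟨p - (q + 2), by omega⟩
      rw [hr'] at hpq ⊢
      nlinarith [Nat.zero_le (q * q), Nat.zero_le (q * r'), Nat.zero_le (b * r'),
        Nat.zero_le (b * q)]
  · have hA3c : A3.card = 0 := by
      rw [hA3, Finset.filter_false_of_mem fun _ _ => hLs]; rfl
    rw [hA3c]
    by_cases hp0 : p = 0
    · -- one row vanishes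
      obtain ⟨i0, _, hmin⟩ := Finset.exists_min_image (univ : Finset (Fin (b + 2)))
        (fun i => (A1.filter fun x => x.1 = i).card) ⟨0, mem_univ _⟩
      set D : Finset (Fin (b + 2) × Fin (b + 2 + 1)) := A1.filter fun x => x.1 = i0 with hD
      have hle : (b + 2) * D.card ≤ n1 := by
        have h5 : n1 = ∑ i, (A1.filter fun x => x.1 = i).card := by
          rw [hn1]
          exact Finset.card_eq_sum_card_fiberwise (fun x _ => mem_coe.2 (mem_univ _))
        rw [h5]
        have h6 := Finset.card_nsmul_le_sum (univ : Finset (Fin (b + 2)))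
          (fun i => (A1.filter fun x => x.1 = i).card) D.card (fun i hi => hmin i hi)
        simpa [smul_eq_mul] using h6
      refine ⟨(A1 \ D).disjSum ∅, ?_, ?_, ?_⟩
      · refine ext_0 k live _ ?_ ?_ ?_
        · intro i j hx
          rw [Finset.inl_mem_disjSum, mem_sdiff, hA1, mem_filter] at hx
          exact (hl1 i j).2 hx.1.2
        · intro j
          rw [Finset.inr_mem_disjSum]; simp
        · intro σ j hcon
          have h5 := hcon (σ.symm i0)
          rw [Finset.inl_mem_disjSum, mem_sdiff] at h5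
          exact h5.2 (by rw [hD]; exact mem_filter.2 ⟨h5.1, by simp⟩)
      · rw [Finset.card_disjSum]
        have := Finset.card_le_card (Finset.sdiff_subset (s := A1) (t := D))
        simp only [Finset.card_empty]
        omega
      · rw [Finset.card_disjSum, Finset.card_sdiff_of_subset (Finset.filter_subset _ _), hp0]
        simp only [Finset.card_empty]
        have h7 : D.card ≤ n1 := Finset.card_le_card (Finset.filter_subset _ _)
        have e1 : n1 + (0 + 0) - (n1 - D.card + 0) = D.card := by omega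
        rw [e1]
        nlinarith [Nat.zero_le (b * q)]
    · by_cases hqp : q ≤ p
      · obtain ⟨Pt, hPt, hc⟩ := chart_y (by omega)
        refine ⟨Pt, hPt, by omega, ?_⟩
        have e1 : n1 + (p + 0) - Pt.card = q := by omega
        rw [e1]
        obtain ⟨r', hr'⟩ : ∃ r', p = q + r' := ⟨p - q, by omega⟩
        rw [hr'] at hpq ⊢
        rcases Nat.eq_zero_or_pos q with h0 | h0
        · rw [h0]; simp
        · have h8 : q ≤ q * q := Nat.le_mul_of_pos_left q h0
          nlinarith [Nat.zero_le (q * r'), Nat.zero_le (b * r'), Nat.zero_le (b * q)]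
      · refine ⟨A1.disjSum ∅, ?_, ?_, ?_⟩
        · refine ext_0 k live _ ?_ ?_ ?_
          · intro i j hx
            rw [Finset.inl_mem_disjSum, hA1, mem_filter] at hx
            exact (hl1 i j).2 hx.2
          · intro j
            rw [Finset.inr_mem_disjSum]; simp
          · intro σ j hcon
            apply hqp
            refine Finset.card_le_card_of_injOn (fun i => j.succAbove (σ.symm i)) ?_ ?_
            · intro i hi
              have hi' := (mem_filter.1 (Finset.mem_coe.1 hi)).2
              refine Finset.mem_coe.2 (mem_filter.2 ⟨mem_univ _, ?_⟩)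
              have h5 := hcon (σ.symm i)
              rw [Finset.inl_mem_disjSum, hA1, mem_filter] at h5
              have h6 := h5.2
              simp only [Equiv.apply_symm_apply] at h6
              exact h2' i _ h6 hi'
            · intro i _ i' _ h
              exact σ.symm.injective (Fin.succAbove_right_injective h)
        · rw [Finset.card_disjSum]
          simp only [Finset.card_empty]
          omega
        · rw [Finset.card_disjSum]
          simp only [Finset.card_empty]
          have e1 : n1 + (p + 0) - (n1 + 0) = p := by omega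
          rw [e1]
          obtain ⟨r', hr'⟩ : ∃ r', q = p + 1 + r' := ⟨q - (p + 1), by omega⟩
          rw [hr'] at hpq ⊢
          nlinarith [Nat.zero_le (p * p), Nat.zero_le (p * r'), Nat.zero_le (b * r'),
            Nat.zero_le (b * p)]

section
variable {k : Type} [Field k] {G : Type} [Group G] {N : ℕ} {w : Fin N → ℕ} {α : Fin N → G →* kˣ}

open Classical in
/-- the block -/
theorem exists_bd_km (ha : 2 ≤ a)
    (M : Matrix (Fin a) (Fin (a + 1)) (MvPolynomial (Fin N) k))
    (y : Fin (a + 1) → MvPolynomial (Fin N) k) (s : MvPolynomial (Fin N) k)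
    (rr : Fin a → ℤ) (cc : Fin (a + 1) → ℤ) (f : ℤ)
    (ρ : Fin a → G →* kˣ) (κ : Fin (a + 1) → G →* kˣ) (φ : G →* kˣ)
    (posX : ∀ i j, 0 < rr i + cc j) (posy : ∀ j, 0 < f - cc j)
    (poss : 0 < ∑ i, rr i + ∑ j, cc j - f)
    (homX : ∀ i j, ∀ d : ℕ, (d : ℤ) = rr i + cc j → IsWeightedHomogeneous w (M i j) d)
    (homy : ∀ j, ∀ d : ℕ, (d : ℤ) = f - cc j → IsWeightedHomogeneous w (y j) d)
    (homs : ∀ d : ℕ, (d : ℤ) = ∑ i, rr i + ∑ j, cc j - f → IsWeightedHomogeneous w s d)
    (semiX : ∀ i j, ∀ g : G, act (fun i => (α i g : k)) (M i j) =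
      C (((ρ i * κ j) g : kˣ) : k) * M i j)
    (semiy : ∀ j, ∀ g : G, act (fun i => (α i g : k)) (y j) =
      C (((φ * (κ j)⁻¹) g : kˣ) : k) * y j)
    (semis : ∀ g : G, act (fun i => (α i g : k)) s =
      C ((((∏ i, ρ i) * (∏ j, κ j) * φ⁻¹) g : kˣ) : k) * s) :
    Nonempty (Pool.Agent.R837.FQ.BD k G N w α
      (2 * (2 * ∑ i, rr i + ∑ j, cc j + ((a : ℤ) - 1) * f))
      (fun p => (∀ i, ∑ j, eval p (M i j) * eval p (y j) = 0) ∧
        ∀ j : Fin (a + 1), eval p s * eval p (y j) =
          (-1) ^ (j : ℕ) * ((M.map (eval p)).submatrix id j.succAbove).det)) := by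
  have hnX : ∀ i j, ((rr i + cc j).toNat : ℤ) = rr i + cc j :=
    fun i j => Int.toNat_of_nonneg (posX i j).le
  have hny : ∀ j, ((f - cc j).toNat : ℤ) = f - cc j := fun j => Int.toNat_of_nonneg (posy j).le
  have hns : ((∑ i, rr i + ∑ j, cc j - f).toNat : ℤ) = ∑ i, rr i + ∑ j, cc j - f :=
    Int.toNat_of_nonneg poss.le
  have posQ : ∀ i, 0 < rr i + f := fun i => by
    have h1 := posX i 0
    have h2 := posy 0
    linarith
  have hnQ : ∀ i, ((rr i + f).toNat : ℤ) = rr i + f := fun i => Int.toNat_of_nonneg (posQ i).le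
  set dg : Co a → ℕ := Sum.elim (fun x => (rr x.1 + cc x.2).toNat)
    (Sum.elim (fun j => (f - cc j).toNat) fun _ => (∑ i, rr i + ∑ j, cc j - f).toNat) with hdg
  set χ : Co a → G →* kˣ := Sum.elim (fun x => ρ x.1 * κ x.2)
    (Sum.elim (fun j => φ * (κ j)⁻¹) fun _ => (∏ i, ρ i) * (∏ j, κ j) * φ⁻¹) with hχ
  have hpos : ∀ c, 0 < dg c := by
    rintro (⟨i, j⟩ | j | _)
    · have := posX i j
      simp only [hdg, Sum.elim_inl]; omega
    · have := posy j
      simp only [hdg, Sum.elim_inr, Sum.elim_inl]; omega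
    · simp only [hdg, Sum.elim_inr]; omega
  refine ⟨{
    K := Co a
    ftK := inferInstance
    J := Fin a ⊕ Fin (a + 1)
    g := kmEq k a
    M := Sum.elim (fun x => M x.1 x.2) (Sum.elim y fun _ => s)
    dg := dg
    dg_pos := hpos
    hom := ?_
    hg := ?_
    χ := χ
    semi := ?_
    rank := ?_
    P := Co a ⊕ Fin a
    ftP := inferInstance
    c := Sum.elim (cw a) fun _ => a - 2
    d := Sum.elim dg fun i => (rr i + f).toNat
    hd := ?_
    X := Sum.elim χ fun i => ρ i * φ
    q := 2 * a
    hq := by omega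
    htop := ?_
    pat := ?_ }⟩
  · rintro (⟨i, j⟩ | j | _)
    · exact homX i j _ (hnX i j)
    · exact homy j _ (hny j)
    · exact homs _ hns
  · rintro (i | j)
    · refine ⟨(rr i + f).toNat, ?_⟩
      unfold kmEq
      refine IsWeightedHomogeneous.sum _ _ _ fun j _ => ?_
      have h3 := (isWeightedHomogeneous_X k dg (Sum.inl (i, j))).mul
        (isWeightedHomogeneous_X k dg (Sum.inr (Sum.inl j)))
      have h4 : dg (Sum.inl (i, j)) + dg (Sum.inr (Sum.inl j)) = (rr i + f).toNat := by
        have h5 := hny j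
        have h6 := hnX i j
        have h7 := hnQ i
        simp only [hdg, Sum.elim_inr, Sum.elim_inl]
        omega
      rw [h4] at h3
      exact h3
    · refine ⟨dg (Sum.inr (Sum.inr ())) + dg (Sum.inr (Sum.inl j)), ?_⟩
      unfold kmEq
      refine IsWeightedHomogeneous.sub ((isWeightedHomogeneous_X k _ _).mul
        (isWeightedHomogeneous_X k _ _)) ?_
      have hdet : IsWeightedHomogeneous dg ((Xm k a).submatrix id j.succAbove).det
          (dg (Sum.inr (Sum.inr ())) + dg (Sum.inr (Sum.inl j))) := by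
        rw [Matrix.det_apply]
        refine IsWeightedHomogeneous.sum _ _ _ fun σ _ => ?_
        have h1 : IsWeightedHomogeneous dg
            (∏ i, ((Xm k a).submatrix id j.succAbove) (σ i) i)
            (∑ i, dg (Sum.inl (σ i, j.succAbove i))) :=
          IsWeightedHomogeneous.prod _ _ _ fun i _ => isWeightedHomogeneous_X k dg _
        have h2 : ∑ i, dg (Sum.inl (σ i, j.succAbove i)) =
            dg (Sum.inr (Sum.inr ())) + dg (Sum.inr (Sum.inl j)) := by
          have h3 : ((∑ i, dg (Sum.inl (σ i, j.succAbove i)) : ℕ) : ℤ) =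
              ((dg (Sum.inr (Sum.inr ())) + dg (Sum.inr (Sum.inl j)) : ℕ) : ℤ) := by
            push_cast
            simp only [hdg, Sum.elim_inr, Sum.elim_inl]
            rw [Finset.sum_congr rfl fun i _ => hnX (σ i) (j.succAbove i), hns, hny,
              Finset.sum_add_distrib, Equiv.sum_comp σ rr, Fin.sum_univ_succAbove cc j]
            ring
          exact_mod_cast h3
        rw [h2] at h1
        rcases Int.units_eq_one_or (Equiv.Perm.sign σ) with h4 | h4
        · rw [h4, one_smul]; exact h1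
        · rw [h4]
          have h5 : (-1 : ℤˣ) • ∏ i, ((Xm k a).submatrix id j.succAbove) (σ i) i =
              - ∏ i, ((Xm k a).submatrix id j.succAbove) (σ i) i := by
            rw [Units.neg_smul, one_smul]
          rw [h5]
          exact h1.neg
      rcases neg_one_pow_eq_or (MvPolynomial (Co a) k) (j : ℕ) with h1 | h1
      · rw [h1, one_mul]; exact hdet
      · rw [h1, neg_one_mul]; exact hdet.neg
  · rintro γ (⟨i, j⟩ | j | _)
    · exact semiX i j γ
    · exact semiy j γ
    · exact semis γ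
  · intro p hp
    refine ⟨fun i => ?_, fun j => ?_⟩
    · have h3 := hp (Sum.inl i)
      simp only [kmEq, map_sum, map_mul, eval_X, Sum.elim_inr, Sum.elim_inl] at h3
      exact h3
    · have h3 := hp (Sum.inr j)
      simp only [kmEq, map_sub, map_mul, map_pow, map_neg, map_one, eval_X, Sum.elim_inr,
        Sum.elim_inl] at h3
      rw [RingHom.map_det, sub_eq_zero] at h3
      rw [h3]
      congr 2
      ext i l
      simp [Xm]
  · rintro (c | i)
    · exact hpos c
    · have := posQ i
      simp only [Sum.elim_inr]; omega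
  · have s1 : ∑ x : Fin a × Fin (a + 1), ((2 : ℕ) : ℤ) * (((rr x.1 + cc x.2).toNat : ℕ) : ℤ) =
        2 * ((a + 1) * ∑ i, rr i + a * ∑ j, cc j) := by
      rw [Fintype.sum_congr _ (fun x => ((2 : ℕ) : ℤ) * (rr x.1 + cc x.2))
        (fun x => by rw [hnX x.1 x.2]), Fintype.sum_prod_type]
      simp only [← Finset.mul_sum, Finset.sum_add_distrib,
        Finset.sum_const, Finset.card_univ, Fintype.card_fin, nsmul_eq_mul]
      push_cast
      ring
    have s2 : ∑ j : Fin (a + 1), (a : ℤ) * (((f - cc j).toNat : ℕ) : ℤ) =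
        a * ((a + 1) * f - ∑ j, cc j) := by
      rw [Fintype.sum_congr _ (fun j => (a : ℤ) * (f - cc j)) (fun j => by rw [hny j])]
      simp only [← Finset.mul_sum, Finset.sum_sub_distrib,
        Finset.sum_const, Finset.card_univ, Fintype.card_fin, nsmul_eq_mul]
      push_cast
      ring
    have s3 : ∑ i : Fin a, ((a - 2 : ℕ) : ℤ) * (((rr i + f).toNat : ℕ) : ℤ) =
        (a - 2) * (∑ i, rr i + a * f) := by
      rw [Fintype.sum_congr _ (fun i => ((a - 2 : ℕ) : ℤ) * (rr i + f))
        (fun i => by rw [hnQ i])]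
      simp only [← Finset.mul_sum, Finset.sum_add_distrib,
        Finset.sum_const, Finset.card_univ, Fintype.card_fin, nsmul_eq_mul]
      rw [Nat.cast_sub ha]
      push_cast
      ring
    have s4 : ∑ _u : Unit, (a : ℤ) * (((∑ i, rr i + ∑ j, cc j - f).toNat : ℕ) : ℤ) =
        a * (∑ i, rr i + ∑ j, cc j - f) := by
      rw [hns]; simp
    rw [Fintype.sum_sum_type, Fintype.sum_sum_type, Fintype.sum_sum_type]
    simp only [Sum.elim_inl, Sum.elim_inr, cw, hdg]
    rw [s1, s2, s3, s4]
    push_cast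
    ring
  · intro γ μ
    set R : Fin a → Fin (a + 1) → Prop := fun i j =>
      rc μ (ρ i γ) (rr i) * rc μ (κ j γ) (cc j) = 1 with hR
    set Lx : Fin (a + 1) → Prop := fun j => rc μ (κ j γ) (cc j) = rc μ (φ γ) f with hLx
    set Qp : Fin a → Prop := fun i => rc μ (ρ i γ) (rr i) * rc μ (φ γ) f = 1 with hQp
    set Ls : Prop := (∏ i, rc μ (ρ i γ) (rr i)) * (∏ j, rc μ (κ j γ) (cc j)) = rc μ (φ γ) f
      with hLs
    have hprod : ∀ {ι : Type} (S : Finset ι) (x : ι → kˣ) (e : ι → ℤ),
        ∏ i ∈ S, rc μ (x i) (e i) = rc μ (∏ i ∈ S, x i) (∑ i ∈ S, e i) := by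
      intro ι S x e
      induction S using Finset.induction_on with
      | empty => simp [rc]
      | insert a S ha ih => rw [prod_insert ha, prod_insert ha, sum_insert ha, ih, rc_mul_rc]
    have hinv : ∀ (x : kˣ) (e : ℤ), rc μ x⁻¹ (-e) = (rc μ x e)⁻¹ := by
      intro x e
      simp only [rc, zpow_neg, mul_inv, inv_inv]
    obtain ⟨Pt, h1, h2⟩ : ∃ Pt : Finset (Co a),
        Pool.Agent.R837.FQ.Ext k (kmEq k a) (fun c => χ c γ = μ ^ dg c) Pt ∧
        Pt.card ≤ (univ.filter fun c => χ c γ = μ ^ dg c).card ∧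
        2 * a * ((univ.filter fun c => χ c γ = μ ^ dg c).card - Pt.card) ≤
        ∑ c ∈ univ.filter (fun c => χ c γ = μ ^ dg c), cw a c +
          (a - 2) * (univ.filter Qp).card := by
      have key := pat k ha R Lx Qp Ls ?_ ?_ ?_ ?_ (fun c => χ c γ = μ ^ dg c) ?_ ?_ ?_
        (univ.filter fun c => χ c γ = μ ^ dg c) (fun c => by rw [mem_filter]; simp)
      · convert key
      · intro i j h1 h2
        show _ * rc μ (φ γ) f = 1
        rw [← h2]; exact h1
      · intro i j h1 h2
        show _ * rc μ (κ j γ) (cc j) = 1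
        rw [h2]; exact h1
      · intro i j h1 h2
        exact mul_left_cancel (h1.trans h2.symm)
      · intro σ j hσ
        have h5 : (∏ i, rc μ (ρ i γ) (rr i)) *
            ∏ i, rc μ (κ (j.succAbove i) γ) (cc (j.succAbove i)) = 1 := by
          rw [← Equiv.prod_comp σ (fun i => rc μ (ρ i γ) (rr i)), ← Finset.prod_mul_distrib]
          exact Finset.prod_eq_one fun i _ => hσ i
        have h6 : (∏ i, rc μ (ρ i γ) (rr i)) * (∏ j, rc μ (κ j γ) (cc j)) =
            rc μ (κ j γ) (cc j) := by
          rw [Fin.prod_univ_succAbove _ j, mul_left_comm, h5, mul_one]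
        show rc μ (κ j γ) (cc j) = rc μ (φ γ) f ↔ _ = rc μ (φ γ) f
        rw [h6]
      · intro i j
        simp only [hχ, hdg, Sum.elim_inl]
        rw [← rc_eq_one μ _ _ _ (hnX i j)]
        show rc μ (ρ i γ * κ j γ) _ = 1 ↔ _
        rw [← rc_mul_rc]
      · intro j
        simp only [hχ, hdg, Sum.elim_inl, Sum.elim_inr]
        rw [← rc_eq_one μ _ _ _ (hny j)]
        have h5 : rc μ ((φ * (κ j)⁻¹) γ) (f - cc j) =
            rc μ (φ γ) f * (rc μ (κ j γ) (cc j))⁻¹ := by
          rw [sub_eq_add_neg, ← hinv, rc_mul_rc]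
          rfl
        rw [h5, mul_inv_eq_one]
        exact eq_comm
      · simp only [hχ, hdg, Sum.elim_inr]
        rw [← rc_eq_one μ _ _ _ hns]
        have h5 : rc μ (((∏ i, ρ i) * (∏ j, κ j) * φ⁻¹) γ) (∑ i, rr i + ∑ j, cc j - f) =
            (∏ i, rc μ (ρ i γ) (rr i)) * (∏ j, rc μ (κ j γ) (cc j)) *
              (rc μ (φ γ) f)⁻¹ := by
          rw [hprod, hprod, sub_eq_add_neg, ← hinv, rc_mul_rc, rc_mul_rc]
          simp [MonoidHom.finsetProd_apply]
        rw [h5, mul_inv_eq_one]
    refine ⟨Pt, h1, ?_⟩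
    intro A hA E hE
    have e1 : A = univ.filter fun c => χ c γ = μ ^ dg c := by
      ext c; rw [hA c]; simp
    have e2 : E = (univ.filter fun c => χ c γ = μ ^ dg c).disjSum (univ.filter Qp) := by
      ext c
      rw [hE c]
      rcases c with c | i
      · rw [Finset.inl_mem_disjSum]; simp
      · rw [Finset.inr_mem_disjSum, mem_filter]
        simp only [Sum.elim_inr, mem_univ, true_and]
        rw [← rc_eq_one μ _ _ _ (hnQ i)]
        show rc μ (ρ i γ * φ γ) _ = 1 ↔ _
        rw [← rc_mul_rc]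
    rw [e1, e2, Finset.sum_disjSum]
    refine ⟨h2.1, ?_⟩
    simp only [Sum.elim_inl, Sum.elim_inr, Finset.sum_const, smul_eq_mul]
    rw [mul_comm (univ.filter Qp).card]
    exact h2.2

end

end Pool.Agent.U913.KM
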