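import Pool.Agent.R837.FQ.Total
import Pool.Agent.R837.FE.Key

/-!
# The format `X y = 0`, `s y = (maximal minors of X)`: free coordinates
-/

set_option autoImplicit false
set_option linter.unusedSectionVars false

namespace Pool.Agent.U913.KM

open Finset MvPolynomial

/-- the coordinates: the entries of `X` of size `a × (a + 1)`, of `y`, and `s` -/
abbrev Co (a : ℕ) : Type := (Fin a × Fin (a + 1)) ⊕ (Fin (a + 1) ⊕ Unit)

/-- the matrix of the coordinates -/
noncomputable def Xm (k : Type) [Field k] (a : ℕ) :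
    Matrix (Fin a) (Fin (a + 1)) (MvPolynomial (Co a) k) := fun i j => X (Sum.inl (i, j))

/-- the equations -/
noncomputable def kmEq (k : Type) [Field k] (a : ℕ) : Fin a ⊕ Fin (a + 1) → MvPolynomial (Co a) k
  | Sum.inl i => ∑ j, X (Sum.inl (i, j)) * X (Sum.inr (Sum.inl j))
  | Sum.inr j => X (Sum.inr (Sum.inr ())) * X (Sum.inr (Sum.inl j)) -
      (-1) ^ (j : ℕ) * ((Xm k a).submatrix id j.succAbove).det

variable {a : ℕ}

theorem aeval_kmEq {k : Type} [Field k] {L : Type} [Field L] [Algebra k L]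
    (A : Matrix (Fin a) (Fin (a + 1)) L) (y : Fin (a + 1) → L) (s : L)
    (h1 : ∀ i, ∑ j, A i j * y j = 0)
    (h2 : ∀ j, s * y j = (-1) ^ (j : ℕ) * (A.submatrix id j.succAbove).det)
    (j : Fin a ⊕ Fin (a + 1)) :
    aeval (Sum.elim (fun x : Fin a × Fin (a + 1) => A x.1 x.2) (Sum.elim y fun _ => s))
      (kmEq k a j) = 0 := by
  rcases j with i | j
  · simp only [kmEq, map_sum, map_mul, aeval_X, Sum.elim_inl, Sum.elim_inr]
    exact h1 i
  · simp only [kmEq, map_sub, map_mul, map_pow, map_neg, map_one, aeval_X, Sum.elim_inl,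
      Sum.elim_inr]
    rw [AlgHom.map_det, h2 j, sub_eq_zero]
    congr 2
    ext i l
    simp [Xm]

/-- a nonvanishing determinant has a nonvanishing term -/
theorem exists_perm {L : Type} [Field L] (B : Matrix (Fin a) (Fin a) L) (h : B.det ≠ 0) :
    ∃ σ : Equiv.Perm (Fin a), ∀ i, B (σ i) i ≠ 0 := by
  by_contra hcon
  push Not at hcon
  apply h
  rw [Matrix.det_apply]
  refine Finset.sum_eq_zero fun σ _ => ?_
  obtain ⟨i, hi⟩ := hcon σ
  have h1 : ∏ i, B (σ i) i = 0 := Finset.prod_eq_zero (mem_univ i) hi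
  exact (congrArg (fun z : L => Equiv.Perm.sign σ • z) h1).trans (smul_zero _)

/-- the matrix with an additional first row -/
def addRow {L : Type} [Field L] (v : Fin (a + 1) → L) (A : Matrix (Fin a) (Fin (a + 1)) L) :
    Matrix (Fin (a + 1)) (Fin (a + 1)) L := Fin.cons v A

theorem det_addRow {L : Type} [Field L] (v : Fin (a + 1) → L)
    (A : Matrix (Fin a) (Fin (a + 1)) L) :
    (addRow v A).det = ∑ j, v j * ((-1) ^ (j : ℕ) * (A.submatrix id j.succAbove).det) := by
  rw [Matrix.det_succ_row_zero]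
  refine Finset.sum_congr rfl fun j _ => ?_
  have h1 : (addRow v A).submatrix Fin.succ j.succAbove = A.submatrix id j.succAbove := by
    ext i l
    rfl
  have h2 : addRow v A 0 j = v j := rfl
  rw [h1, h2]
  ring

/-- the chart in which a coordinate of `y` does not vanish -/
theorem ext_y (k : Type) [Field k] (R : Fin a → Fin (a + 1) → Prop)
    (Lx : Fin (a + 1) → Prop) (Ls : Prop) (j0 : Fin (a + 1)) (hj0 : Lx j0)
    (hc : ∀ i l, R i l → Lx l → R i j0)
    (hs : ∀ σ : Equiv.Perm (Fin a), (∀ i, R (σ i) (j0.succAbove i)) → Ls)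
    (live : Co a → Prop)
    (hl1 : ∀ i j, R i j → live (Sum.inl (i, j))) (hl2 : ∀ j, Lx j → live (Sum.inr (Sum.inl j)))
    (hl3 : Ls → live (Sum.inr (Sum.inr ()))) (Pt : Finset (Co a))
    (hP1 : ∀ i j, Sum.inl (i, j) ∈ Pt → R i j ∧ j ≠ j0)
    (hP2 : ∀ j, Sum.inr (Sum.inl j) ∈ Pt ↔ Lx j) (hP3 : Sum.inr (Sum.inr ()) ∉ Pt) :
    Pool.Agent.R837.FQ.Ext k (kmEq k a) live Pt := by
  classical
  intro L _ _ u hu
  have hj0P : Sum.inr (Sum.inl j0) ∈ Pt := (hP2 j0).2 hj0
  let y : Fin (a + 1) → L := fun j => if Lx j then u (Sum.inr (Sum.inl j)) else 0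
  have hy0 : y j0 ≠ 0 := by
    have h1 : u (Sum.inr (Sum.inl j0)) ≠ 0 := hu.ne_zero ⟨_, hj0P⟩
    simpa [y, hj0] using h1
  let B : Matrix (Fin a) (Fin (a + 1)) L := fun i j =>
    if (Sum.inl (i, j) : Co a) ∈ Pt then u (Sum.inl (i, j)) else 0
  have hB : ∀ i j, B i j ≠ 0 → R i j ∧ j ≠ j0 := by
    intro i j h
    by_cases hm : (Sum.inl (i, j) : Co a) ∈ Pt
    · exact hP1 i j hm
    · exact absurd (if_neg hm) h
  let c : Fin a → L := fun i => - (y j0)⁻¹ * ∑ l, B i l * y l
  let A : Matrix (Fin a) (Fin (a + 1)) L := fun i j => B i j + (if j = j0 then c i else 0)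
  have hA : ∀ i j, A i j ≠ 0 → R i j := by
    intro i j h
    by_contra hcon
    apply h
    have h1 : B i j = 0 := by
      by_contra h2
      exact hcon (hB _ _ h2).1
    show B i j + (if j = j0 then c i else 0) = 0
    rw [h1, zero_add]
    split_ifs with hj
    · have h2 : ∀ l, B i l * y l = 0 := by
        intro l
        by_contra h3
        have h4 := (hB _ _ (left_ne_zero_of_mul h3)).1
        have h5 : Lx l := by
          by_contra h6
          apply right_ne_zero_of_mul h3
          simp [y, h6]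
        exact hcon (hj ▸ hc i l h4 h5)
      show - (y j0)⁻¹ * ∑ l, B i l * y l = 0
      rw [Finset.sum_eq_zero fun l _ => h2 l, mul_zero]
    · rfl
  have hker : ∀ i, ∑ j, A i j * y j = 0 := by
    intro i
    have h2 : ∀ j, A i j * y j = B i j * y j + (if j = j0 then c i * y j else 0) := by
      intro j
      show (B i j + (if j = j0 then c i else 0)) * y j = _
      split_ifs <;> ring
    rw [Finset.sum_congr rfl fun j _ => h2 j, Finset.sum_add_distrib,
      Finset.sum_ite_eq' univ j0, if_pos (mem_univ j0)]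
    have h3 : c i * y j0 = - ∑ l, B i l * y l := by
      show - (y j0)⁻¹ * (∑ l, B i l * y l) * y j0 = _
      field_simp
    rw [h3]
    ring
  let s : L := (y j0)⁻¹ * ((-1) ^ (j0 : ℕ) * (A.submatrix id j0.succAbove).det)
  have hsy : ∀ j, s * y j = (-1) ^ (j : ℕ) * (A.submatrix id j.succAbove).det := by
    intro j
    by_cases hj : j = j0
    · rw [hj]
      show (y j0)⁻¹ * _ * y j0 = _
      field_simp
    · let v : Fin (a + 1) → L := fun l =>
        (if l = j then y j0 else 0) - (if l = j0 then y j else 0)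
      have h1 : (addRow v A).det = 0 := by
        apply Matrix.exists_mulVec_eq_zero_iff.1
        refine ⟨y, fun h => hy0 (congrFun h j0), ?_⟩
        funext i
        refine Fin.cases ?_ (fun i => ?_) i
        · show ∑ l, addRow v A 0 l * y l = 0
          have h2 : ∀ l, addRow v A 0 l * y l =
              (if l = j then y j0 * y l else 0) - (if l = j0 then y j * y l else 0) := by
            intro l
            show v l * y l = _
            show ((if l = j then y j0 else 0) - (if l = j0 then y j else 0)) * y l = _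
            split_ifs <;> ring
          rw [Finset.sum_congr rfl fun l _ => h2 l, Finset.sum_sub_distrib,
            Finset.sum_ite_eq' univ j, Finset.sum_ite_eq' univ j0, if_pos (mem_univ _),
            if_pos (mem_univ _)]
          ring
        · exact hker i
      rw [det_addRow] at h1
      have h2 : ∀ l, v l * ((-1) ^ (l : ℕ) * (A.submatrix id l.succAbove).det) =
          (if l = j then y j0 * ((-1) ^ (l : ℕ) * (A.submatrix id l.succAbove).det) else 0) -
          (if l = j0 then y j * ((-1) ^ (l : ℕ) * (A.submatrix id l.succAbove).det) else 0) := by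
        intro l
        show ((if l = j then y j0 else 0) - (if l = j0 then y j else 0)) * _ = _
        split_ifs <;> ring
      rw [Finset.sum_congr rfl fun l _ => h2 l, Finset.sum_sub_distrib,
        Finset.sum_ite_eq' univ j, Finset.sum_ite_eq' univ j0, if_pos (mem_univ _),
        if_pos (mem_univ _), sub_eq_zero] at h1
      have h3 : y j0 * (s * y j) =
          y j0 * ((-1) ^ (j : ℕ) * (A.submatrix id j.succAbove).det) := by
        rw [h1]
        show y j0 * ((y j0)⁻¹ * _ * y j) = _
        field_simp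
      exact mul_left_cancel₀ hy0 h3
  refine ⟨Sum.elim (fun x : Fin a × Fin (a + 1) => A x.1 x.2) (Sum.elim y fun _ => s),
    ?_, ?_, fun j => aeval_kmEq A y s hker hsy j⟩
  · rintro (⟨i, j⟩ | j | _) hx
    · have h1 := hP1 i j hx
      show B i j + (if j = j0 then c i else 0) = _
      rw [if_neg h1.2, add_zero]
      exact if_pos hx
    · exact if_pos ((hP2 j).1 hx)
    · exact absurd hx hP3
  · rintro (⟨i, j⟩ | j | _) hx
    · show A i j = 0
      by_contra h
      exact hx (hl1 i j (hA i j h))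
    · show y j = 0
      exact if_neg fun h => hx (hl2 j h)
    · show s = 0
      have h1 : (A.submatrix id j0.succAbove).det = 0 := by
        by_contra h
        obtain ⟨σ, hσ⟩ := exists_perm _ h
        exact hx (hl3 (hs σ fun i => hA _ _ (hσ i)))
      show (y j0)⁻¹ * ((-1) ^ (j0 : ℕ) * (A.submatrix id j0.succAbove).det) = 0
      rw [h1, mul_zero, mul_zero]

/-- the chart in which `s` does not vanish -/
theorem ext_s (k : Type) [Field k] (R : Fin a → Fin (a + 1) → Prop)
    (Lx : Fin (a + 1) → Prop)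
    (hs : ∀ (σ : Equiv.Perm (Fin a)) (j : Fin (a + 1)),
      (∀ i, R (σ i) (j.succAbove i)) → Lx j)
    (live : Co a → Prop)
    (hl1 : ∀ i j, R i j → live (Sum.inl (i, j))) (hl2 : ∀ j, Lx j → live (Sum.inr (Sum.inl j)))
    (hl3 : live (Sum.inr (Sum.inr ()))) (Pt : Finset (Co a))
    (hP1 : ∀ i j, Sum.inl (i, j) ∈ Pt → R i j)
    (hP2 : ∀ j, Sum.inr (Sum.inl j) ∉ Pt) (hP3 : Sum.inr (Sum.inr ()) ∈ Pt) :
    Pool.Agent.R837.FQ.Ext k (kmEq k a) live Pt := by
  classical
  intro L _ _ u hu
  set s : L := u (Sum.inr (Sum.inr ())) with hsdef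
  have hs0 : s ≠ 0 := hu.ne_zero ⟨_, hP3⟩
  let A : Matrix (Fin a) (Fin (a + 1)) L := fun i j =>
    if (Sum.inl (i, j) : Co a) ∈ Pt then u (Sum.inl (i, j)) else 0
  have hA : ∀ i j, A i j ≠ 0 → R i j := by
    intro i j h
    by_cases hm : (Sum.inl (i, j) : Co a) ∈ Pt
    · exact hP1 i j hm
    · exact absurd (if_neg hm) h
  let y : Fin (a + 1) → L := fun j => s⁻¹ * ((-1) ^ (j : ℕ) * (A.submatrix id j.succAbove).det)
  have hker : ∀ i, ∑ j, A i j * y j = 0 := by
    intro i
    have h1 : (addRow (A i) A).det = 0 := by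
      refine Matrix.det_zero_of_row_eq (i := 0) (j := i.succ) (Fin.succ_ne_zero i).symm ?_
      rfl
    rw [det_addRow] at h1
    have h2 : ∑ j, A i j * y j =
        s⁻¹ * ∑ j, A i j * ((-1) ^ (j : ℕ) * (A.submatrix id j.succAbove).det) := by
      rw [Finset.mul_sum]
      refine Finset.sum_congr rfl fun j _ => ?_
      show A i j * (s⁻¹ * _) = _
      ring
    rw [h2, h1, mul_zero]
  have hsy : ∀ j, s * y j = (-1) ^ (j : ℕ) * (A.submatrix id j.succAbove).det := by
    intro j
    show s * (s⁻¹ * _) = _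
    rw [mul_inv_cancel_left₀ hs0]
  refine ⟨Sum.elim (fun x : Fin a × Fin (a + 1) => A x.1 x.2) (Sum.elim y fun _ => s),
    ?_, ?_, fun j => aeval_kmEq A y s hker hsy j⟩
  · rintro (⟨i, j⟩ | j | _) hx
    · exact if_pos hx
    · exact absurd hx (hP2 j)
    · rfl
  · rintro (⟨i, j⟩ | j | _) hx
    · show A i j = 0
      by_contra h
      exact hx (hl1 i j (hA i j h))
    · show y j = 0
      have h1 : (A.submatrix id j.succAbove).det = 0 := by
        by_contra h
        obtain ⟨σ, hσ⟩ := exists_perm _ h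
        exact hx (hl2 j (hs σ j fun i => hA _ _ (hσ i)))
      show s⁻¹ * ((-1) ^ (j : ℕ) * (A.submatrix id j.succAbove).det) = 0
      rw [h1, mul_zero, mul_zero]
    · exact absurd hl3 hx

/-- the chart in which `y` and `s` vanish -/
theorem ext_0 (k : Type) [Field k] (live : Co a → Prop) (Pt : Finset (Co a))
    (hP : ∀ i j, Sum.inl (i, j) ∈ Pt → live (Sum.inl (i, j)))
    (hP2 : ∀ j, Sum.inr j ∉ Pt)
    (hdet : ∀ (σ : Equiv.Perm (Fin a)) (j : Fin (a + 1)),
      ¬ ∀ i, (Sum.inl (σ i, j.succAbove i) : Co a) ∈ Pt) :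
    Pool.Agent.R837.FQ.Ext k (kmEq k a) live Pt := by
  classical
  intro L _ _ u _
  let A : Matrix (Fin a) (Fin (a + 1)) L := fun i j =>
    if (Sum.inl (i, j) : Co a) ∈ Pt then u (Sum.inl (i, j)) else 0
  have hA : ∀ i j, A i j ≠ 0 → (Sum.inl (i, j) : Co a) ∈ Pt := by
    intro i j h
    by_contra hm
    exact h (if_neg hm)
  refine ⟨Sum.elim (fun x : Fin a × Fin (a + 1) => A x.1 x.2) (Sum.elim (fun _ => 0) fun _ => 0),
    ?_, ?_, fun j => aeval_kmEq A (fun _ => 0) 0 (fun i => by simp) (fun j => ?_) j⟩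
  · rintro (⟨i, j⟩ | j) hx
    · exact if_pos hx
    · exact absurd hx (hP2 j)
  · rintro (⟨i, j⟩ | j | _) hx
    · show A i j = 0
      by_contra h
      exact hx (hP i j (hA i j h))
    · rfl
    · rfl
  · have h1 : (A.submatrix id j.succAbove).det = 0 := by
      by_contra h
      obtain ⟨σ, hσ⟩ := exists_perm _ h
      exact hdet σ j fun i => hA _ _ (hσ i)
    rw [h1]
    ring

end Pool.Agent.U913.KM
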